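import Pool.Agent.Q255.EB.Stm

/-!
# EB-CHAIN (project EB of helper255, MP_29be01_nt): chaining on a dyadic grid
-/

set_option autoImplicit false

namespace Pool.Agent.Q124.EB

open Finset Pool.Agent.Q255.EB

/-- change the coordinates one after the other -/
theorem change {D : ℕ} (z : (Fin D → ℕ) → ℝ) (M p a : ℕ) (B : ℝ) (_hB : 0 ≤ B)
    (hz : ∀ (l : Fin D) (i : Fin D → ℕ), (∀ l', a ∣ i l') → (∀ l', i l' ≤ M) → i l + a ≤ M →
      |z (Function.update i l (i l + a)) - z i| ≤ B) (u v : Fin D → ℕ) (hu : ∀ l, a ∣ u l)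
    (huv : ∀ l, v l = u l ∨ v l = u l + a) (hv : ∀ l, v l ≤ M) (_hp : p = 0) : |z v - z u| ≤ D * B := by
  classical
  have key : ∀ A : Finset (Fin D), |z (fun l => if l ∈ A then v l else u l) - z u| ≤ A.card * B := by
    intro A
    induction A using Finset.induction_on with
    | empty => simp
    | insert l A hl ih =>
      rw [card_insert_of_notMem hl]
      push_cast
      have hwl : (fun l' => if l' ∈ A then v l' else u l') l = u l := by
        simp only [hl, if_false]
      rcases huv l with h | h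
      · have e : (fun l' => if l' ∈ insert l A then v l' else u l') = fun l' => if l' ∈ A then v l' else u l' := by
          funext l'
          by_cases h' : l' = l
          · subst h'
            simp only [mem_insert_self, if_true, hl, if_false, h]
          · simp only [mem_insert, h', false_or]
        rw [e]
        linarith
      · have e : (fun l' => if l' ∈ insert l A then v l' else u l') =
            Function.update (fun l' => if l' ∈ A then v l' else u l') l
              ((fun l' => if l' ∈ A then v l' else u l') l + a) := by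
          rw [hwl]
          funext l'
          by_cases h' : l' = l
          · subst h'
            simp only [mem_insert_self, if_true, Function.update_self, h]
          · simp only [mem_insert, h', false_or, Function.update_of_ne h']
        rw [e]
        have h1 := hz l (fun l' => if l' ∈ A then v l' else u l') (fun l' => by
            by_cases h' : l' ∈ A
            · simp only [h', if_true]
              rcases huv l' with h2 | h2
              · rw [h2]; exact hu l'
              · rw [h2]; exact (hu l').add (dvd_refl a)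
            · simp only [h', if_false]
              exact hu l')
          (fun l' => by
            by_cases h' : l' ∈ A
            · simp only [h', if_true]
              exact hv l'
            · simp only [h', if_false]
              have h3 := hv l'
              rcases huv l' with h2 | h2 <;> omega)
          (by
            simp only [hl, if_false]
            rw [← h]
            exact hv l)
        calc |z (Function.update (fun l' => if l' ∈ A then v l' else u l') l
              ((fun l' => if l' ∈ A then v l' else u l') l + a)) - z u|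
            ≤ |z (Function.update (fun l' => if l' ∈ A then v l' else u l') l
              ((fun l' => if l' ∈ A then v l' else u l') l + a)) - z (fun l' => if l' ∈ A then v l' else u l')| +
              |z (fun l' => if l' ∈ A then v l' else u l') - z u| := abs_sub_le _ _ _
          _ ≤ (A.card + 1) * B := by linarith
  have h := key univ
  simp only [mem_univ, if_true, card_univ, Fintype.card_fin] at h
  exact h

/-- the points of the levels -/
theorem chain_pt {D : ℕ} (z : (Fin D → ℕ) → ℝ) (J : ℕ) (hD : 0 < D) (hz0 : ∀ i : Fin D → ℕ, (∃ l, i l = 0) → z i = 0)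
    (a : ℕ → ℝ) (ha : ∀ j, 0 ≤ a j)
    (hz : ∀ j ≤ J, ∀ (l : Fin D) (i : Fin D → ℕ), (∀ l', 2 ^ (J - j) ∣ i l') → (∀ l', i l' ≤ 2 ^ J) →
      i l + 2 ^ (J - j) ≤ 2 ^ J → |z (Function.update i l (i l + 2 ^ (J - j))) - z i| ≤ a j)
    (i : Fin D → ℕ) (hi : ∀ l, i l ≤ 2 ^ J) : |z i| ≤ D * ∑ j ∈ range (J + 1), a j := by
  have hlv : ∀ j ≤ J, |z (fun l => 2 ^ (J - j) * (i l / 2 ^ (J - j)))| ≤ D * ∑ k ∈ range (j + 1), a k := by
    intro j
    induction j with
    | zero =>
      intro _
      have h1 := change z (2 ^ J) 0 (2 ^ (J - 0)) (a 0) (ha 0) (hz 0 (Nat.zero_le J)) (fun _ => 0)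
        (fun l => 2 ^ (J - 0) * (i l / 2 ^ (J - 0))) (fun _ => dvd_zero _) (fun l => by
          simp only [Nat.sub_zero]
          have h2 := hi l
          have h3 : i l / 2 ^ J ≤ 1 := by
            calc i l / 2 ^ J ≤ 2 ^ J / 2 ^ J := Nat.div_le_div_right h2
              _ = 1 := Nat.div_self (by positivity)
          have h4 : i l / 2 ^ J = 0 ∨ i l / 2 ^ J = 1 := Nat.le_one_iff_eq_zero_or_eq_one.1 h3
          rcases h4 with h4 | h4
          · left; rw [h4, mul_zero]
          · right; rw [h4, mul_one, zero_add]) (fun l => (Nat.mul_div_le _ _).trans (hi l)) rfl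
      have h2 : z (fun _ => 0) = 0 := hz0 _ ⟨⟨0, hD⟩, rfl⟩
      rw [h2, sub_zero] at h1
      simpa using h1
    | succ j ih =>
      intro hj
      have h0 := ih (by omega)
      have e : 2 ^ (J - j) = 2 * 2 ^ (J - (j + 1)) := by
        rw [← pow_succ']
        congr 1
        omega
      have h1 := change z (2 ^ J) 0 (2 ^ (J - (j + 1))) (a (j + 1)) (ha (j + 1)) (hz (j + 1) hj)
        (fun l => 2 ^ (J - j) * (i l / 2 ^ (J - j)))
        (fun l => 2 ^ (J - (j + 1)) * (i l / 2 ^ (J - (j + 1))))
        (fun l => by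
          rw [e, mul_comm 2, mul_assoc]
          exact dvd_mul_right _ _)
        (fun l => by
          rw [e, mul_comm 2, ← Nat.div_div_eq_div_mul]
          generalize 2 ^ (J - (j + 1)) = w
          generalize i l / w = y
          rcases Nat.even_or_odd' y with ⟨c, hc | hc⟩
          · left
            rw [hc, Nat.mul_div_cancel_left _ (by norm_num)]
            ring
          · right
            have : (2 * c + 1) / 2 = c := by omega
            rw [hc, this]
            ring)
        (fun l => (Nat.mul_div_le _ _).trans (hi l)) rfl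
      rw [sum_range_succ, mul_add]
      calc |z (fun l => 2 ^ (J - (j + 1)) * (i l / 2 ^ (J - (j + 1))))|
          = |(z (fun l => 2 ^ (J - (j + 1)) * (i l / 2 ^ (J - (j + 1)))) -
              z (fun l => 2 ^ (J - j) * (i l / 2 ^ (J - j)))) + z (fun l => 2 ^ (J - j) * (i l / 2 ^ (J - j)))| := by
            rw [sub_add_cancel]
        _ ≤ |z (fun l => 2 ^ (J - (j + 1)) * (i l / 2 ^ (J - (j + 1)))) -
              z (fun l => 2 ^ (J - j) * (i l / 2 ^ (J - j)))| + |z (fun l => 2 ^ (J - j) * (i l / 2 ^ (J - j)))| :=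
            abs_add_le _ _
        _ ≤ D * ∑ k ∈ range (j + 1), a k + D * a (j + 1) := by linarith
  have h := hlv J le_rfl
  have e : (fun l => 2 ^ (J - J) * (i l / 2 ^ (J - J))) = i := by
    funext l
    simp
  rw [e] at h
  exact h

/-- the numerical condition -/
theorem ratio_le {D r : ℕ} (hD : 0 < D) (hr : 4 * D < r) : (2 : ℝ) ^ D * (32 / 49) ^ r ≤ 1 / 2 := by
  have h1 : ((32 : ℝ) / 49) ^ r ≤ (32 / 49) ^ (4 * D) := pow_le_pow_of_le_one (by norm_num) (by norm_num) hr.le
  calc (2 : ℝ) ^ D * (32 / 49) ^ r ≤ 2 ^ D * (32 / 49) ^ (4 * D) := by gcongr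
    _ = (2 * (32 / 49) ^ 4) ^ D := by rw [mul_pow, ← pow_mul]
    _ ≤ (1 / 2) ^ D := by
        gcongr
        norm_num
    _ ≤ (1 / 2) ^ 1 := pow_le_pow_of_le_one (by norm_num) (by norm_num) hD
    _ = 1 / 2 := by norm_num

/-- **CHAIN** -/
theorem t_CHAIN : S_CHAIN := by
  classical
  intro D r C₁ hD hr hC₁
  have hD0 : (0 : ℝ) < D := by exact_mod_cast hD
  have hr0 : 0 < r := by omega
  -- the constants
  obtain ⟨c₂, hc₂⟩ : ∃ c₂ : ℝ, c₂ = D * 2 ^ D * C₁ * (8 * D) ^ (2 * r) := ⟨_, rfl⟩
  have hc₂0 : 0 ≤ c₂ := by rw [hc₂]; positivity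
  refine ⟨2 * c₂ + 1, by linarith, ?_⟩
  intro Ω S J N Z hN hZ0 hZ lam hlam
  have hsN : 0 < √N := Real.sqrt_pos.2 hN
  obtain ⟨a, ha⟩ : ∃ a : ℕ → ℝ, ∀ j, a j = (7 / 8) ^ j / (8 * D) * (lam * √N) := ⟨_, fun _ => rfl⟩
  have ha0 : ∀ j, 0 < a j := fun j => by rw [ha]; positivity
  -- the bad vectors of an edge
  let bad : ℕ → Fin D → (Fin D → ℕ) → Finset Ω := fun j l m => S.filter fun ω =>
    2 ^ (J - j) * m l + 2 ^ (J - j) ≤ 2 ^ J ∧ (∀ l', 2 ^ (J - j) * m l' ≤ 2 ^ J) ∧
      a j < |Z ω (Function.update (fun l' => 2 ^ (J - j) * m l') l (2 ^ (J - j) * m l + 2 ^ (J - j))) -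
        Z ω (fun l' => 2 ^ (J - j) * m l')|
  have hbad : ∀ j ≤ J, ∀ l m, ((bad j l m).card : ℝ) ≤
      S.card / lam ^ (2 * r) * (C₁ * (8 * D) ^ (2 * r)) * (32 / 49) ^ (r * j) := by
    intro j hj l m
    by_cases hedge : 2 ^ (J - j) * m l + 2 ^ (J - j) ≤ 2 ^ J ∧ ∀ l', 2 ^ (J - j) * m l' ≤ 2 ^ J
    · have h1 := hZ j hj l (fun l' => 2 ^ (J - j) * m l') (fun l' => dvd_mul_right _ _) hedge.2 hedge.1
      have h2 : ((bad j l m).card : ℝ) * a j ^ (2 * r) ≤ ∑ ω ∈ S,
          (Z ω (Function.update (fun l' => 2 ^ (J - j) * m l') l (2 ^ (J - j) * m l + 2 ^ (J - j))) -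
            Z ω (fun l' => 2 ^ (J - j) * m l')) ^ (2 * r) := by
        rw [← nsmul_eq_mul, ← sum_const]
        refine le_trans (sum_le_sum fun ω hω => ?_) (sum_le_sum_of_subset_of_nonneg (filter_subset _ _)
          fun ω _ _ => by rw [pow_mul]; positivity)
        have h3 := (mem_filter.1 hω).2.2.2
        calc a j ^ (2 * r) ≤ |Z ω (Function.update (fun l' => 2 ^ (J - j) * m l') l (2 ^ (J - j) * m l + 2 ^ (J - j))) -
            Z ω (fun l' => 2 ^ (J - j) * m l')| ^ (2 * r) := pow_le_pow_left₀ (ha0 j).le h3.le _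
          _ = _ := by rw [pow_mul, sq_abs, ← pow_mul]
      have h3 := h2.trans h1
      have h4 : a j ^ (2 * r) = (49 / 64) ^ (r * j) / (8 * D) ^ (2 * r) * (lam ^ (2 * r) * N ^ r) := by
        rw [ha, mul_pow, div_pow, mul_pow lam, ← pow_mul, show √N ^ (2 * r) = N ^ r by
          rw [pow_mul, Real.sq_sqrt hN.le]]
        congr 2
        rw [show j * (2 * r) = 2 * (r * j) by ring, pow_mul]
        norm_num
      rw [h4] at h3
      have h5 : 0 < (49 / 64 : ℝ) ^ (r * j) / (8 * D) ^ (2 * r) * (lam ^ (2 * r) * N ^ r) := by positivity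
      rw [← le_div_iff₀ h5] at h3
      refine h3.trans (le_of_eq ?_)
      rw [div_pow, ← pow_mul, mul_comm j r]
      have e1 : (32 / 49 : ℝ) ^ (r * j) = 1 / (2 ^ (r * j) * (49 / 64) ^ (r * j)) := by
        rw [← mul_pow, ← one_div_pow]
        norm_num
      rw [e1]
      field_simp
    · have h1 : bad j l m = ∅ := by
        refine filter_false_of_mem fun ω _ h => hedge ⟨h.1, h.2.1⟩
      rw [h1, card_empty, Nat.cast_zero]
      positivity
  -- the exceptional set
  let T : Finset Ω := (range (J + 1)).biUnion fun j => univ.biUnion fun l =>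
    (Fintype.piFinset fun _ : Fin D => range (2 ^ j + 1)).biUnion fun m => bad j l m
  have hTS : T ⊆ S := by
    intro ω hω
    simp only [T, mem_biUnion] at hω
    obtain ⟨j, _, l, _, m, _, h⟩ := hω
    exact (mem_filter.1 h).1
  refine ⟨T, hTS, ?_, ?_⟩
  · have hj : ∀ j ∈ range (J + 1), (((univ : Finset (Fin D)).biUnion fun l =>
        (Fintype.piFinset fun _ : Fin D => range (2 ^ j + 1)).biUnion fun m => bad j l m).card : ℝ) ≤
        S.card / lam ^ (2 * r) * c₂ * (1 / 2) ^ j := by
      intro j hj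
      have hjJ : j ≤ J := by
        rw [mem_range] at hj
        omega
      have h1 : (((univ : Finset (Fin D)).biUnion fun l =>
          (Fintype.piFinset fun _ : Fin D => range (2 ^ j + 1)).biUnion fun m => bad j l m).card : ℝ) ≤
          ∑ l : Fin D, ∑ m ∈ Fintype.piFinset fun _ : Fin D => range (2 ^ j + 1), ((bad j l m).card : ℝ) := by
        have h2 : ((univ : Finset (Fin D)).biUnion fun l =>
            (Fintype.piFinset fun _ : Fin D => range (2 ^ j + 1)).biUnion fun m => bad j l m).card ≤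
            ∑ l : Fin D, ∑ m ∈ Fintype.piFinset fun _ : Fin D => range (2 ^ j + 1), (bad j l m).card :=
          card_biUnion_le.trans (sum_le_sum fun l _ => card_biUnion_le)
        exact_mod_cast h2
      refine h1.trans ?_
      refine (sum_le_sum fun l _ => sum_le_sum fun m _ => hbad j hjJ l m).trans ?_
      rw [sum_const, sum_const, card_univ, Fintype.card_fin, Fintype.card_piFinset, prod_const, card_univ,
        Fintype.card_fin, card_range, nsmul_eq_mul, nsmul_eq_mul]
      push_cast
      have h3 : ((2 : ℝ) ^ j + 1) ^ D ≤ 2 ^ D * (2 ^ D) ^ j := by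
        have h4 : (2 : ℝ) ^ j + 1 ≤ 2 * 2 ^ j := by
          have : (1 : ℝ) ≤ 2 ^ j := one_le_pow₀ (by norm_num)
          linarith
        calc ((2 : ℝ) ^ j + 1) ^ D ≤ (2 * 2 ^ j) ^ D := pow_le_pow_left₀ (by positivity) h4 _
          _ = 2 ^ D * (2 ^ D) ^ j := by rw [mul_pow, ← pow_mul, ← pow_mul, mul_comm j D]
      have h5 : ((2 : ℝ) ^ D) ^ j * (32 / 49) ^ (r * j) ≤ (1 / 2) ^ j := by
        rw [pow_mul, ← mul_pow]
        exact pow_le_pow_left₀ (by positivity) (ratio_le hD hr) j
      have h6 : 0 ≤ (S.card : ℝ) / lam ^ (2 * r) * (C₁ * (8 * D) ^ (2 * r)) := by positivity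
      calc (D : ℝ) * (((2 : ℝ) ^ j + 1) ^ D * (S.card / lam ^ (2 * r) * (C₁ * (8 * D) ^ (2 * r)) * (32 / 49) ^ (r * j)))
          ≤ D * ((2 ^ D * (2 ^ D) ^ j) * (S.card / lam ^ (2 * r) * (C₁ * (8 * D) ^ (2 * r)) * (32 / 49) ^ (r * j))) := by
            gcongr
        _ = D * 2 ^ D * (S.card / lam ^ (2 * r) * (C₁ * (8 * D) ^ (2 * r))) * ((2 ^ D) ^ j * (32 / 49) ^ (r * j)) := by
            ring
        _ ≤ D * 2 ^ D * (S.card / lam ^ (2 * r) * (C₁ * (8 * D) ^ (2 * r))) * (1 / 2) ^ j := by gcongr
        _ = S.card / lam ^ (2 * r) * c₂ * (1 / 2) ^ j := by rw [hc₂]; ring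
    have h1 : (T.card : ℝ) ≤ ∑ j ∈ range (J + 1), S.card / lam ^ (2 * r) * c₂ * (1 / 2) ^ j := by
      have h2 : (T.card : ℝ) ≤ ∑ j ∈ range (J + 1), (((univ : Finset (Fin D)).biUnion fun l =>
        (Fintype.piFinset fun _ : Fin D => range (2 ^ j + 1)).biUnion fun m => bad j l m).card : ℝ) := by
        have h3 : T.card ≤ ∑ j ∈ range (J + 1), ((univ : Finset (Fin D)).biUnion fun l =>
          (Fintype.piFinset fun _ : Fin D => range (2 ^ j + 1)).biUnion fun m => bad j l m).card := card_biUnion_le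
        exact_mod_cast h3
      exact h2.trans (sum_le_sum hj)
    have h2 : ∑ j ∈ range (J + 1), (1 / 2 : ℝ) ^ j ≤ 2 := by
      rw [geom_sum_eq (by norm_num)]
      have : (0 : ℝ) < (1 / 2) ^ (J + 1) := by positivity
      rw [show (1 / 2 : ℝ) - 1 = -(1 / 2) by norm_num, div_neg, ← neg_div, div_le_iff₀ (by norm_num)]
      linarith
    rw [← mul_sum] at h1
    have h3 : 0 ≤ (S.card : ℝ) / lam ^ (2 * r) := by positivity
    calc (T.card : ℝ) ≤ S.card / lam ^ (2 * r) * c₂ * ∑ j ∈ range (J + 1), (1 / 2 : ℝ) ^ j := h1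
      _ ≤ S.card / lam ^ (2 * r) * c₂ * 2 := by gcongr
      _ ≤ (2 * c₂ + 1) * S.card / lam ^ (2 * r) := by
          have : (2 * c₂ + 1) * (S.card : ℝ) / lam ^ (2 * r) = S.card / lam ^ (2 * r) * c₂ * 2 + S.card / lam ^ (2 * r) := by
            ring
          linarith
  · intro ω hω hωT i hi
    have h1 := chain_pt (Z ω) J hD (hZ0 ω hω) a (fun j => (ha0 j).le) (by
      intro j hj l i' h1 h2 h3
      by_contra hcon
      push Not at hcon
      apply hωT
      have hm : ∀ l', 2 ^ (J - j) * (i' l' / 2 ^ (J - j)) = i' l' := fun l' => Nat.mul_div_cancel' (h1 l')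
      have hfun : (fun l' => 2 ^ (J - j) * (i' l' / 2 ^ (J - j))) = i' := funext hm
      simp only [T, mem_biUnion]
      refine ⟨j, mem_range.2 (by omega), l, mem_univ l, fun l' => i' l' / 2 ^ (J - j), ?_, ?_⟩
      · rw [Fintype.mem_piFinset]
        intro l'
        rw [mem_range, Nat.lt_succ_iff]
        calc i' l' / 2 ^ (J - j) ≤ 2 ^ J / 2 ^ (J - j) := Nat.div_le_div_right (h2 l')
          _ = 2 ^ j := by
              rw [Nat.pow_div (by omega) (by norm_num)]
              congr 1
              omega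
      · simp only [bad, mem_filter]
        rw [hfun, hm]
        exact ⟨hω, h3, fun l' => by rw [hm]; exact h2 l', hcon⟩) i hi
    refine h1.trans ?_
    have h2 : ∑ j ∈ range (J + 1), a j ≤ lam * √N / D := by
      have h3 : ∑ j ∈ range (J + 1), a j = (∑ j ∈ range (J + 1), (7 / 8 : ℝ) ^ j) * (1 / (8 * D) * (lam * √N)) := by
        rw [sum_mul]
        refine sum_congr rfl fun j _ => ?_
        rw [ha]
        ring
      have h4 : ∑ j ∈ range (J + 1), (7 / 8 : ℝ) ^ j ≤ 8 := by
        rw [geom_sum_eq (by norm_num)]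
        have : (0 : ℝ) < (7 / 8) ^ (J + 1) := by positivity
        rw [show (7 / 8 : ℝ) - 1 = -(1 / 8) by norm_num, div_neg, ← neg_div, div_le_iff₀ (by norm_num)]
        linarith
      rw [h3]
      calc (∑ j ∈ range (J + 1), (7 / 8 : ℝ) ^ j) * (1 / (8 * D) * (lam * √N)) ≤ 8 * (1 / (8 * D) * (lam * √N)) := by
            gcongr
        _ = lam * √N / D := by
            field_simp
    calc (D : ℝ) * ∑ j ∈ range (J + 1), a j ≤ D * (lam * √N / D) := by gcongr
      _ = lam * √N := mul_div_cancel₀ _ hD0.ne'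

end Pool.Agent.Q124.EB
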