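import Pool.Agent.Q255.EB.Stm

/-!
# EB-MOM (project EB of helper255, MP_29be01_nt): moments over boxes of integer vectors
-/

set_option autoImplicit false

namespace Pool.Agent.Q124.EB

open Finset Q282LT Q285MD Pool.Agent.Q255.EB

variable {d s K : ℕ} {q : ℕ → ℕ} {g : ℕ → (Fin d → ℤ) → ℝ}

/-! ### Elementary inequalities -/

theorem exp_le_quad {y : ℝ} (h : |y| ≤ 1) : Real.exp y ≤ 1 + y + y ^ 2 := by
  have h1 := Real.abs_exp_sub_one_sub_id_le h
  have h2 := (abs_le.1 h1).2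
  linarith

theorem pow_le_exp (r : ℕ) (y : ℝ) : y ^ (2 * r) ≤ (2 * r).factorial * (Real.exp y + Real.exp (-y)) := by
  have h1 : |y| ^ (2 * r) / (2 * r).factorial ≤ Real.exp |y| :=
    Real.pow_div_factorial_le_exp _ (abs_nonneg y) _
  have h2 : y ^ (2 * r) = |y| ^ (2 * r) := by
    rw [pow_mul, pow_mul, sq_abs]
  have h3 : Real.exp |y| ≤ Real.exp y + Real.exp (-y) := by
    rcases abs_cases y with ⟨h, _⟩ | ⟨h, _⟩
    · rw [h]; linarith [Real.exp_pos (-y)]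
    · rw [h]; linarith [Real.exp_pos y]
  have hf : (0 : ℝ) < (2 * r).factorial := by exact_mod_cast Nat.factorial_pos _
  rw [div_le_iff₀ hf] at h1
  rw [h2]
  nlinarith

theorem sum_pow_le {ι : Type*} (X : Finset ι) (f : ι → ℝ) (r : ℕ) :
    (∑ c ∈ X, f c) ^ (2 * r) ≤ (X.card : ℝ) ^ (2 * r) * ∑ c ∈ X, f c ^ (2 * r) ∨ X = ∅ := by
  classical
  rcases X.eq_empty_or_nonempty with h | h
  · exact Or.inr h
  left
  obtain ⟨c₀, hc₀, hmax⟩ := exists_max_image X (fun c => |f c|) h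
  have h1 : |∑ c ∈ X, f c| ≤ X.card * |f c₀| := by
    refine (abs_sum_le_sum_abs _ _).trans ?_
    rw [← nsmul_eq_mul]
    exact sum_le_card_nsmul _ _ _ hmax
  calc (∑ c ∈ X, f c) ^ (2 * r) = |∑ c ∈ X, f c| ^ (2 * r) := by rw [pow_mul, pow_mul, sq_abs]
    _ ≤ (X.card * |f c₀|) ^ (2 * r) := pow_le_pow_left₀ (abs_nonneg _) h1 _
    _ = (X.card : ℝ) ^ (2 * r) * f c₀ ^ (2 * r) := by rw [mul_pow, pow_mul |f c₀|, sq_abs, ← pow_mul]
    _ ≤ (X.card : ℝ) ^ (2 * r) * ∑ c ∈ X, f c ^ (2 * r) := by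
        refine mul_le_mul_of_nonneg_left ?_ (by positivity)
        exact single_le_sum (f := fun c => f c ^ (2 * r)) (fun c _ => by
          show 0 ≤ f c ^ (2 * r)
          rw [pow_mul]; positivity) hc₀

/-! ### The model -/

theorem G_le_one (h : Dat d s K q g) (h0 : ∀ k < K, ∀ ν, 0 ≤ g k ν) {k : ℕ} (hk : k < K) (ν : Fin d → ℤ) :
    |G s q g k ν| ≤ 1 := by
  unfold G
  have h1 := h.bd k hk
  have h2 : 0 ≤ avg d (wm q s k) (g k) := by
    have := avg_mono (q := wm q s k) (f := fun _ => 0) (g := g k) (h0 k hk)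
    rwa [avg_const (h.wm_pos hk)] at this
  have h3 : avg d (wm q s k) (g k) ≤ 1 := (abs_le.1 (avg_abs (h.wm_pos hk) h1)).2
  have h4 := h0 k hk ν
  have h5 := (abs_le.1 (h1 ν)).2
  rw [abs_le]
  constructor <;> linarith

theorem avg_G_sq (h : Dat d s K q g) (h0 : ∀ k < K, ∀ ν, 0 ≤ g k ν) {k : ℕ} (hk : k < K) :
    avg d (wm q s k) (fun ν => G s q g k ν ^ 2) ≤ avg d (wm q s k) (g k) := by
  have h2 : 0 ≤ avg d (wm q s k) (g k) := by
    have := avg_mono (q := wm q s k) (f := fun _ => 0) (g := g k) (h0 k hk)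
    rwa [avg_const (h.wm_pos hk)] at this
  have h3 : avg d (wm q s k) (g k) ≤ 1 := (abs_le.1 (avg_abs (h.wm_pos hk) (h.bd k hk))).2
  obtain ⟨μ, hμ⟩ : ∃ μ, μ = avg d (wm q s k) (g k) := ⟨_, rfl⟩
  rw [← hμ] at h2 h3 ⊢
  have h4 : avg d (wm q s k) (fun ν => G s q g k ν ^ 2) ≤ avg d (wm q s k) (fun ν => (1 - 2 * μ) * g k ν + μ ^ 2) := by
    refine avg_mono fun ν => ?_
    unfold G
    rw [← hμ]
    have h5 := h0 k hk ν
    have h6 := (abs_le.1 (h.bd k hk ν)).2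
    nlinarith
  refine h4.trans ?_
  have e1 := avg_add (d := d) (q := wm q s k) (fun ν => (1 - 2 * μ) * g k ν) (fun _ => μ ^ 2)
  have e2 := avg_smul (d := d) (q := wm q s k) (1 - 2 * μ) (g k)
  have e3 := avg_const (d := d) (h.wm_pos hk) (μ ^ 2)
  rw [e1, e2, e3, ← hμ]
  nlinarith

theorem avg_exp_le (h : Dat d s K q g) (h0 : ∀ k < K, ∀ ν, 0 ≤ g k ν) {k : ℕ} (hk : k < K) {t : ℝ}
    (ht : |t| ≤ 1) :
    avg d (wm q s k) (fun ν => Real.exp (t * G s q g k ν)) ≤ Real.exp (t ^ 2 * avg d (wm q s k) (g k)) := by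
  have h1 : avg d (wm q s k) (fun ν => Real.exp (t * G s q g k ν)) ≤
      avg d (wm q s k) (fun ν => (1 + t * G s q g k ν) + t ^ 2 * G s q g k ν ^ 2) := by
    refine avg_mono fun ν => ?_
    have h2 : |t * G s q g k ν| ≤ 1 := by
      rw [abs_mul]
      calc |t| * |G s q g k ν| ≤ 1 * 1 := mul_le_mul ht (G_le_one h h0 hk ν) (abs_nonneg _) zero_le_one
        _ = 1 := one_mul 1
    have h3 := exp_le_quad h2
    rw [mul_pow] at h3
    exact h3
  refine h1.trans ?_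
  have e1 := avg_add (d := d) (q := wm q s k) (fun ν => 1 + t * G s q g k ν) (fun ν => t ^ 2 * G s q g k ν ^ 2)
  have e2 := avg_add (d := d) (q := wm q s k) (fun _ => 1) (fun ν => t * G s q g k ν)
  have e3 := avg_const (d := d) (h.wm_pos hk) (1 : ℝ)
  have e4 := avg_smul (d := d) (q := wm q s k) t (G s q g k)
  have e5 := avg_smul (d := d) (q := wm q s k) (t ^ 2) (fun ν => G s q g k ν ^ 2)
  rw [e1, e2, e3, e4, e5, h.G_avg hk, mul_zero, add_zero]
  have h4 := avg_G_sq h h0 hk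
  have h5 : t ^ 2 * avg d (wm q s k) (fun ν => G s q g k ν ^ 2) ≤ t ^ 2 * avg d (wm q s k) (g k) :=
    mul_le_mul_of_nonneg_left h4 (sq_nonneg t)
  have h6 := Real.add_one_le_exp (t ^ 2 * avg d (wm q s k) (g k))
  linarith

/-- the average of a product over separated windows -/
theorem avg_prod_sep (h : Dat d s K q g) (f : ℕ → (Fin d → ℤ) → ℝ) (hf : ∀ k < K, ZPer (wm q s k) (f k))
    (X : Finset ℕ) (hX : ∀ k ∈ X, k < K) (hsep : ∀ k ∈ X, ∀ l ∈ X, k ≠ l → k + s ≤ l ∨ l + s ≤ k) :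
    1 ≤ (∏ k ∈ X, wm q s k) ∧ (∏ k ∈ X, wm q s k) ∣ (∏ k ∈ X, wm q s k) * 1 ∧
      ZPer (∏ k ∈ X, wm q s k) (fun ν => ∏ k ∈ X, f k ν) ∧
      avg d (∏ k ∈ X, wm q s k) (fun ν => ∏ k ∈ X, f k ν) = ∏ k ∈ X, avg d (wm q s k) (f k) := by
  classical
  induction X using Finset.induction_on with
  | empty =>
    refine ⟨le_rfl, by simp, fun _ _ _ => rfl, ?_⟩
    simp only [prod_empty]
    exact avg_const le_rfl 1
  | insert k X hk ih =>
    obtain ⟨i1, -, i3, i4⟩ := ih (fun l hl => hX l (mem_insert_of_mem hl))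
      (fun a ha b hb => hsep a (mem_insert_of_mem ha) b (mem_insert_of_mem hb))
    have hkK := hX k (mem_insert_self k X)
    have h1 : 1 ≤ wm q s k := h.wm_pos hkK
    have hcop : Nat.Coprime (wm q s k) (∏ l ∈ X, wm q s l) := by
      refine Nat.Coprime.prod_right fun l hl => ?_
      have hlK := hX l (mem_insert_of_mem hl)
      have hne : k ≠ l := fun e => hk (e ▸ hl)
      have hs := hsep k (mem_insert_self k X) l (mem_insert_of_mem hl) hne
      unfold wm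
      refine Nat.Coprime.prod_left fun i hi => Nat.Coprime.prod_right fun j hj => ?_
      rw [mem_Ico] at hi hj
      exact h.cop i (by omega) j (by omega) (by omega)
    rw [prod_insert hk, prod_insert hk]
    simp only [prod_insert hk]
    refine ⟨Nat.mul_pos h1 i1, by rw [mul_one], ?_, ?_⟩
    · exact ZPer.mul (ZPer.of_dvd (dvd_mul_right _ _) (hf k hkK)) (ZPer.of_dvd (dvd_mul_left _ _) i3)
    · rw [avg_prod h1 i1 hcop (hf k hkK) i3, i4]

theorem wm_prod_dvd (h : Dat d s K q g) {Q : ℕ} (hQ : 1 ≤ Q)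
    {f : (Fin d → ℤ) → ℝ} (hf : ZPer Q f) (hf' : ZPer (tm q (K + s)) f) :
    avg d Q f = avg d (tm q (K + s)) f := by
  have h1 := avg_dvd (Nat.mul_pos hQ h.tm_pos) (dvd_mul_right Q (tm q (K + s))) hf
  have h2 := avg_dvd (Nat.mul_pos hQ h.tm_pos) (dvd_mul_left (tm q (K + s)) Q) hf'
  rw [← h1, h2]

theorem zper_prod_tm (h : Dat d s K q g) (f : ℕ → (Fin d → ℤ) → ℝ) (hf : ∀ k < K, ZPer (wm q s k) (f k))
    (X : Finset ℕ) (hX : ∀ k ∈ X, k < K) : ZPer (tm q (K + s)) (fun ν => ∏ k ∈ X, f k ν) := by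
  intro ν ν' hν
  refine prod_congr rfl fun k hk => ?_
  exact ZPer.of_dvd (h.wm_dvd (hX k hk)) (hf k (hX k hk)) ν ν' hν

/-- the exponential moment of a separated sum -/
theorem avg_exp_sum (h : Dat d s K q g) (h0 : ∀ k < K, ∀ ν, 0 ≤ g k ν) (X : Finset ℕ) (hX : ∀ k ∈ X, k < K)
    (hsep : ∀ k ∈ X, ∀ l ∈ X, k ≠ l → k + s ≤ l ∨ l + s ≤ k) {t : ℝ} (ht : |t| ≤ 1) :
    avg d (tm q (K + s)) (fun ν => Real.exp (t * ∑ k ∈ X, G s q g k ν)) ≤
      Real.exp (t ^ 2 * ∑ k ∈ X, avg d (wm q s k) (g k)) := by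
  have hper : ∀ k < K, ZPer (wm q s k) (fun ν => Real.exp (t * G s q g k ν)) := by
    intro k hk ν ν' hν
    show Real.exp (t * G s q g k ν) = Real.exp (t * G s q g k ν')
    rw [h.G_per hk ν ν' hν]
  obtain ⟨p1, -, p3, p4⟩ := avg_prod_sep h (fun k ν => Real.exp (t * G s q g k ν)) hper X hX hsep
  have e : (fun ν => Real.exp (t * ∑ k ∈ X, G s q g k ν)) = fun ν => ∏ k ∈ X, Real.exp (t * G s q g k ν) := by
    funext ν
    rw [← Real.exp_sum, mul_sum]
  rw [e, ← wm_prod_dvd h p1 p3 (zper_prod_tm h _ hper X hX), p4, mul_sum, Real.exp_sum]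
  refine prod_le_prod (fun k hk => ?_) fun k hk => avg_exp_le h h0 (hX k hk) ht
  have := avg_mono (d := d) (q := wm q s k) (f := fun _ => 0) (g := fun ν => Real.exp (t * G s q g k ν))
    fun ν => (Real.exp_pos _).le
  rwa [avg_const (h.wm_pos (hX k hk))] at this

/-- the moments of a separated sum -/
theorem avg_pow_sep (h : Dat d s K q g) (h0 : ∀ k < K, ∀ ν, 0 ≤ g k ν) (X : Finset ℕ) (hX : ∀ k ∈ X, k < K)
    (hsep : ∀ k ∈ X, ∀ l ∈ X, k ≠ l → k + s ≤ l ∨ l + s ≤ k) (r : ℕ) :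
    avg d (tm q (K + s)) (fun ν => (∑ k ∈ X, G s q g k ν) ^ (2 * r)) ≤
      (2 * r).factorial * (2 * Real.exp 1) * (1 + ∑ k ∈ range K, avg d (wm q s k) (g k)) ^ r := by
  have hnn : ∀ k < K, 0 ≤ avg d (wm q s k) (g k) := fun k hk => by
    have := avg_mono (q := wm q s k) (f := fun _ => 0) (g := g k) (h0 k hk)
    rwa [avg_const (h.wm_pos hk)] at this
  obtain ⟨n, hn⟩ : ∃ n, n = ∑ k ∈ range K, avg d (wm q s k) (g k) := ⟨_, rfl⟩
  have hn0 : 0 ≤ n := by
    rw [hn]; exact sum_nonneg fun k hk => hnn k (mem_range.1 hk)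
  have hXn : ∑ k ∈ X, avg d (wm q s k) (g k) ≤ n := by
    rw [hn]
    exact sum_le_sum_of_subset_of_nonneg (fun k hk => mem_range.2 (hX k hk)) fun k hk _ => hnn k (mem_range.1 hk)
  rw [← hn]
  obtain ⟨t, ht⟩ : ∃ t : ℝ, t = (√(1 + n))⁻¹ := ⟨_, rfl⟩
  have hs0 : 0 < √(1 + n) := Real.sqrt_pos.2 (by linarith)
  have hs1 : 1 ≤ √(1 + n) := by
    rw [Real.one_le_sqrt]
    linarith
  have ht0 : 0 < t := by rw [ht]; positivity
  have ht1 : t ≤ 1 := by rw [ht]; exact inv_le_one_of_one_le₀ hs1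
  have ht2 : t ^ 2 * (1 + n) = 1 := by
    rw [ht, inv_pow, Real.sq_sqrt (by linarith)]
    field_simp
  have htn : t ^ 2 * ∑ k ∈ X, avg d (wm q s k) (g k) ≤ 1 := by
    have h1 : 0 < t ^ 2 := by positivity
    nlinarith
  have hab : |t| ≤ 1 := by rw [abs_of_pos ht0]; exact ht1
  have hab' : |(-t)| ≤ 1 := by rw [abs_neg]; exact hab
  have e1 : Real.exp (t ^ 2 * ∑ k ∈ X, avg d (wm q s k) (g k)) ≤ Real.exp 1 := Real.exp_le_exp.2 htn
  have m1 := (avg_exp_sum h h0 X hX hsep hab).trans e1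
  have m2 := avg_exp_sum h h0 X hX hsep hab'
  rw [neg_sq] at m2
  replace m2 := m2.trans e1
  have h3 : t ^ (2 * r) * avg d (tm q (K + s)) (fun ν => (∑ k ∈ X, G s q g k ν) ^ (2 * r)) ≤
      (2 * r).factorial * (2 * Real.exp 1) := by
    rw [← avg_smul]
    have h4 : avg d (tm q (K + s)) (fun ν => t ^ (2 * r) * (∑ k ∈ X, G s q g k ν) ^ (2 * r)) ≤
        avg d (tm q (K + s)) (fun ν => ((2 * r).factorial : ℝ) * (Real.exp (t * ∑ k ∈ X, G s q g k ν) +
          Real.exp (-t * ∑ k ∈ X, G s q g k ν))) := by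
      refine avg_mono fun ν => ?_
      have := pow_le_exp r (t * ∑ k ∈ X, G s q g k ν)
      rw [mul_pow, ← neg_mul] at this
      exact this
    refine h4.trans ?_
    rw [avg_smul, avg_add]
    have hf : (0 : ℝ) < (2 * r).factorial := by exact_mod_cast Nat.factorial_pos _
    refine mul_le_mul_of_nonneg_left ?_ hf.le
    linarith
  have h5 : t ^ (2 * r) * (1 + n) ^ r = 1 := by
    rw [pow_mul, ← mul_pow, ht2, one_pow]
  have h6 : 0 < t ^ (2 * r) := by positivity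
  have h7 : avg d (tm q (K + s)) (fun ν => (∑ k ∈ X, G s q g k ν) ^ (2 * r)) ≤
      (2 * r).factorial * (2 * Real.exp 1) / t ^ (2 * r) := by
    rw [le_div_iff₀ h6, mul_comm]
    exact h3
  refine h7.trans (le_of_eq ?_)
  rw [div_eq_iff h6.ne']
  calc ((2 * r).factorial : ℝ) * (2 * Real.exp 1) = (2 * r).factorial * (2 * Real.exp 1) * (t ^ (2 * r) * (1 + n) ^ r) := by
        rw [h5, mul_one]
    _ = _ := by ring

/-- the moments in the model -/
theorem avg_pow_all (h : Dat d s K q g) (h0 : ∀ k < K, ∀ ν, 0 ≤ g k ν) (hs : 0 < s) (r : ℕ) :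
    avg d (tm q (K + s)) (fun ν => (∑ k ∈ range K, G s q g k ν) ^ (2 * r)) ≤
      (s : ℝ) ^ (2 * r) * s * ((2 * r).factorial * (2 * Real.exp 1)) *
        (1 + ∑ k ∈ range K, avg d (wm q s k) (g k)) ^ r := by
  classical
  have hsep : ∀ c, ∀ k ∈ (range K).filter (fun k => k % s = c), ∀ l ∈ (range K).filter (fun k => k % s = c), k ≠ l →
      k + s ≤ l ∨ l + s ≤ k := by
    intro c k hk l hl hkl
    have h1 := (mem_filter.1 hk).2
    have h2 := (mem_filter.1 hl).2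
    have h3 : k % s = l % s := h1.trans h2.symm
    rcases lt_or_gt_of_ne hkl with h4 | h4
    · left
      have h5 : (s : ℕ) ∣ l - k := (Nat.modEq_iff_dvd' h4.le).1 h3
      have := Nat.le_of_dvd (by omega) h5
      omega
    · right
      have h5 : (s : ℕ) ∣ k - l := (Nat.modEq_iff_dvd' h4.le).1 h3.symm
      have := Nat.le_of_dvd (by omega) h5
      omega
  have hsplit : ∀ ν, ∑ k ∈ range K, G s q g k ν = ∑ c ∈ range s, ∑ k ∈ range K with k % s = c, G s q g k ν := by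
    intro ν
    rw [sum_fiberwise_of_maps_to]
    intro k _
    exact mem_range.2 (Nat.mod_lt _ hs)
  have h1 : avg d (tm q (K + s)) (fun ν => (∑ k ∈ range K, G s q g k ν) ^ (2 * r)) ≤
      avg d (tm q (K + s)) (fun ν => (s : ℝ) ^ (2 * r) * ∑ c ∈ range s, (∑ k ∈ range K with k % s = c, G s q g k ν) ^ (2 * r)) := by
    refine avg_mono fun ν => ?_
    rw [hsplit]
    rcases sum_pow_le (range s) (fun c => ∑ k ∈ range K with k % s = c, G s q g k ν) r with h2 | h2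
    · rw [card_range] at h2
      exact h2
    · rw [range_eq_empty_iff] at h2
      omega
  refine h1.trans ?_
  rw [avg_smul, avg_sum]
  have h2 : ∑ c ∈ range s, avg d (tm q (K + s)) (fun ν => (∑ k ∈ range K with k % s = c, G s q g k ν) ^ (2 * r)) ≤
      ∑ _c ∈ range s, (2 * r).factorial * (2 * Real.exp 1) * (1 + ∑ k ∈ range K, avg d (wm q s k) (g k)) ^ r := by
    refine sum_le_sum fun c _ => ?_
    exact avg_pow_sep h h0 _ (fun k hk => mem_range.1 (mem_filter.1 hk).1) (hsep c) r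
  rw [sum_const, card_range, nsmul_eq_mul] at h2
  calc (s : ℝ) ^ (2 * r) * ∑ c ∈ range s, avg d (tm q (K + s)) (fun ν => (∑ k ∈ range K with k % s = c, G s q g k ν) ^ (2 * r))
      ≤ (s : ℝ) ^ (2 * r) * (s * ((2 * r).factorial * (2 * Real.exp 1) * (1 + ∑ k ∈ range K, avg d (wm q s k) (g k)) ^ r)) :=
        mul_le_mul_of_nonneg_left h2 (by positivity)
    _ = _ := by ring

/-! ### Boxes -/

/-- the sum over a box is close to the model -/
theorem box_pow (h : Dat d s K q g) (h0 : ∀ k < K, ∀ ν, 0 ≤ g k ν) (hK : 0 < K) (r Y : ℕ) (hY : ∀ i < K + s, q i ≤ Y)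
    (hKY : K ≤ Y) (m : Fin d → ℤ) (L : Fin d → ℕ)
    (hL : ∀ i, (2 : ℝ) * (d + 1) * (Y : ℝ) ^ (2 * r * s + 2 * r) ≤ L i) :
    ∑ ν ∈ zbox m L, (∑ k ∈ range K, G s q g k ν) ^ (2 * r) ≤
      (∏ i, (L i : ℝ)) * (avg d (tm q (K + s)) (fun ν => (∑ k ∈ range K, G s q g k ν) ^ (2 * r)) + 1) := by
  classical
  have hY1 : 1 ≤ Y := le_trans hK hKY
  have hY1' : (1 : ℝ) ≤ Y := by exact_mod_cast hY1
  obtain ⟨T, hT⟩ : ∃ T : ℝ, T = 2 * (d + 1) * (Y : ℝ) ^ (2 * r * s + 2 * r) := ⟨_, rfl⟩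
  have hT0 : 0 < T := by rw [hT]; positivity
  rw [← hT] at hL
  have hL0 : ∀ i, (0 : ℝ) < L i := fun i => hT0.trans_le (hL i)
  have hP0 : 0 < ∏ i, (L i : ℝ) := prod_pos fun i _ => hL0 i
  have hwY : ∀ k < K, wm q s k ≤ Y ^ s := by
    intro k hk
    unfold wm
    calc ∏ i ∈ Ico k (k + s), q i ≤ ∏ _i ∈ Ico k (k + s), Y := prod_le_prod' fun i hi => hY i (by rw [mem_Ico] at hi; omega)
      _ = Y ^ s := by rw [prod_const, Nat.card_Ico, Nat.add_sub_cancel_left]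
  -- expansion
  have hexp : ∀ ν, (∑ k ∈ range K, G s q g k ν) ^ (2 * r) =
      ∑ κ ∈ Fintype.piFinset (fun _ : Fin (2 * r) => range K), ∏ j, G s q g (κ j) ν := by
    intro ν
    calc (∑ k ∈ range K, G s q g k ν) ^ (2 * r) = ∏ _j : Fin (2 * r), ∑ k ∈ range K, G s q g k ν := by
          rw [prod_const, card_univ, Fintype.card_fin]
      _ = ∑ κ ∈ Fintype.piFinset (fun _ : Fin (2 * r) => range K), ∏ j, G s q g (κ j) ν :=
          prod_univ_sum (fun _ : Fin (2 * r) => range K) (fun _ k => G s q g k ν)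
  have hterm : ∀ κ ∈ Fintype.piFinset (fun _ : Fin (2 * r) => range K),
      ∑ ν ∈ zbox m L, ∏ j, G s q g (κ j) ν ≤
        (∏ i, (L i : ℝ)) * (avg d (tm q (K + s)) (fun ν => ∏ j, G s q g (κ j) ν) + 1 / (Y : ℝ) ^ (2 * r)) := by
    intro κ hκ
    have hκ' : ∀ j, κ j < K := fun j => mem_range.1 (Fintype.mem_piFinset.1 hκ j)
    have hQ1 : 1 ≤ ∏ j, wm q s (κ j) := Nat.one_le_iff_ne_zero.2 (prod_ne_zero_iff.2 fun j _ =>
      Nat.one_le_iff_ne_zero.1 (h.wm_pos (hκ' j)))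
    have hQY : ∏ j, wm q s (κ j) ≤ Y ^ (2 * r * s) := by
      calc ∏ j, wm q s (κ j) ≤ ∏ _j : Fin (2 * r), Y ^ s := prod_le_prod' fun j _ => hwY _ (hκ' j)
        _ = Y ^ (2 * r * s) := by rw [prod_const, card_univ, Fintype.card_fin, ← pow_mul, mul_comm s]
    have hQY' : ((∏ j, wm q s (κ j) : ℕ) : ℝ) ≤ (Y : ℝ) ^ (2 * r * s) := by exact_mod_cast hQY
    have hper : ZPer (∏ j, wm q s (κ j)) (fun ν => ∏ j, G s q g (κ j) ν) := by
      intro ν ν' hν
      refine prod_congr rfl fun j _ => ?_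
      exact ZPer.of_dvd (dvd_prod_of_mem _ (mem_univ j)) (h.G_per (hκ' j)) ν ν' hν
    have hper' : ZPer (tm q (K + s)) (fun ν => ∏ j, G s q g (κ j) ν) := by
      intro ν ν' hν
      refine prod_congr rfl fun j _ => ?_
      exact ZPer.of_dvd (h.wm_dvd (hκ' j)) (h.G_per (hκ' j)) ν ν' hν
    have hbd : ∀ ν, |∏ j, G s q g (κ j) ν| ≤ 1 := by
      intro ν
      rw [abs_prod]
      exact prod_le_one (fun j _ => abs_nonneg _) fun j _ => G_le_one h h0 (hκ' j) ν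
    have hYs : (Y : ℝ) ^ (2 * r * s) ≤ (Y : ℝ) ^ (2 * r * s + 2 * r) := pow_le_pow_right₀ hY1' (by omega)
    have hdQ : (d : ℝ) * ((∏ j, wm q s (κ j) : ℕ) : ℝ) ≤ T := by
      rw [hT]
      have hd : (0 : ℝ) ≤ d := Nat.cast_nonneg d
      have h2 : (0 : ℝ) < (Y : ℝ) ^ (2 * r * s + 2 * r) := by positivity
      calc (d : ℝ) * ((∏ j, wm q s (κ j) : ℕ) : ℝ) ≤ d * (Y : ℝ) ^ (2 * r * s + 2 * r) :=
            mul_le_mul_of_nonneg_left (hQY'.trans hYs) hd
        _ ≤ 2 * (d + 1) * (Y : ℝ) ^ (2 * r * s + 2 * r) := mul_le_mul_of_nonneg_right (by linarith) h2.le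
    have h3 := zbox_mean hQ1 m L T hT0 hL _ hper 1 hbd hdQ
    have h4 := (abs_le.1 h3).2
    have h5 : avg d (∏ j, wm q s (κ j)) (fun ν => ∏ j, G s q g (κ j) ν) =
        avg d (tm q (K + s)) (fun ν => ∏ j, G s q g (κ j) ν) := by
      have e1 := avg_dvd (Nat.mul_pos hQ1 h.tm_pos) (dvd_mul_right (∏ j, wm q s (κ j)) (tm q (K + s))) hper
      have e2 := avg_dvd (Nat.mul_pos hQ1 h.tm_pos) (dvd_mul_left (tm q (K + s)) (∏ j, wm q s (κ j))) hper'
      rw [← e1, e2]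
    rw [h5] at h4
    have h6 : (1 : ℝ) * (2 * (d * ((∏ j, wm q s (κ j) : ℕ) : ℝ) / T)) ≤ 1 / (Y : ℝ) ^ (2 * r) := by
      rw [one_mul, ← mul_div_assoc, div_le_div_iff₀ hT0 (by positivity), hT, one_mul]
      have hd : (0 : ℝ) ≤ d := Nat.cast_nonneg d
      calc 2 * ((d : ℝ) * ((∏ j, wm q s (κ j) : ℕ) : ℝ)) * (Y : ℝ) ^ (2 * r)
          ≤ 2 * (d * (Y : ℝ) ^ (2 * r * s)) * (Y : ℝ) ^ (2 * r) := by gcongr
        _ = 2 * d * (Y : ℝ) ^ (2 * r * s + 2 * r) := by rw [pow_add]; ring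
        _ ≤ 2 * (d + 1) * (Y : ℝ) ^ (2 * r * s + 2 * r) := by
            have h2 : (0 : ℝ) < (Y : ℝ) ^ (2 * r * s + 2 * r) := by positivity
            nlinarith
    have h7 := mul_le_mul_of_nonneg_left h6 hP0.le
    linarith
  simp only [hexp]
  rw [sum_comm]
  refine (sum_le_sum hterm).trans ?_
  rw [← mul_sum, sum_add_distrib, avg_sum, sum_const, Fintype.card_piFinset, prod_const, card_univ, Fintype.card_fin,
    card_range, nsmul_eq_mul]
  refine mul_le_mul_of_nonneg_left (add_le_add le_rfl ?_) hP0.le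
  push_cast
  rw [mul_one_div, div_le_one (by positivity)]
  have : (K : ℝ) ≤ Y := by exact_mod_cast hKY
  exact pow_le_pow_left₀ (Nat.cast_nonneg K) this _

/-- **MOM** -/
theorem t_MOM : S_MOM := by
  intro s r
  have hf : (0 : ℝ) < (2 * r).factorial := by exact_mod_cast Nat.factorial_pos _
  have he := Real.exp_pos 1
  refine ⟨(s : ℝ) ^ (2 * r) * s * ((2 * r).factorial * (2 * Real.exp 1)) + 2, 2, 2 * r * s + 2 * r, by positivity,
    by norm_num, ?_⟩
  intro d K q g h h0 Y hY hKY m L hL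
  have hnn : ∀ k < K, 0 ≤ avg d (wm q s k) (g k) := fun k hk => by
    have := avg_mono (q := wm q s k) (f := fun _ => 0) (g := g k) (h0 k hk)
    rwa [avg_const (h.wm_pos hk)] at this
  have hn0 : 0 ≤ ∑ k ∈ range K, avg d (wm q s k) (g k) := sum_nonneg fun k hk => hnn k (mem_range.1 hk)
  have hn1 : (1 : ℝ) ≤ (1 + ∑ k ∈ range K, avg d (wm q s k) (g k)) ^ r := one_le_pow₀ (by linarith)
  have hP : 0 ≤ ∏ i, (L i : ℝ) := prod_nonneg fun i _ => Nat.cast_nonneg _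
  have hCs : 0 ≤ (s : ℝ) ^ (2 * r) * s * ((2 * r).factorial * (2 * Real.exp 1)) := by positivity
  -- the case in which all sums vanish
  have htriv : (∀ ν, ∑ k ∈ range K, G s q g k ν = 0) → ∑ ν ∈ zbox m L, (∑ k ∈ range K, G s q g k ν) ^ (2 * r) ≤
      (∏ i, (L i : ℝ)) * (((s : ℝ) ^ (2 * r) * s * ((2 * r).factorial * (2 * Real.exp 1)) + 2) *
        (1 + ∑ k ∈ range K, avg d (wm q s k) (g k)) ^ r) := by
    intro hz
    have h1 : ∑ ν ∈ zbox m L, (∑ k ∈ range K, G s q g k ν) ^ (2 * r) ≤ ∑ _ν ∈ zbox m L, (1 : ℝ) := by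
      refine sum_le_sum fun ν _ => ?_
      rw [hz ν]
      exact pow_le_one₀ le_rfl zero_le_one
    refine h1.trans ?_
    rw [sum_const, card_zbox, nsmul_eq_mul, mul_one]
    push_cast
    refine le_mul_of_one_le_right hP ?_
    nlinarith
  rcases Nat.eq_zero_or_pos K with hK | hK
  · subst hK
    exact htriv fun ν => by simp
  rcases Nat.eq_zero_or_pos s with hs | hs
  · subst hs
    refine htriv fun ν => ?_
    refine sum_eq_zero fun k hk => ?_
    have hkK := mem_range.1 hk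
    have hw : wm q 0 k = 1 := by
      unfold wm
      simp
    have h1 : ∀ ν', G 0 q g k ν' = G 0 q g k ν := fun ν' =>
      h.G_per hkK ν' ν fun i => by rw [hw]; simp
    have h2 := h.G_avg hkK
    have h3 : (G 0 q g k) = fun _ => G 0 q g k ν := funext h1
    rw [h3, avg_const (h.wm_pos hkK)] at h2
    exact h2
  have h1 := box_pow h h0 hK r Y hY hKY m L hL
  have h2 := avg_pow_all h h0 hs r
  refine h1.trans (mul_le_mul_of_nonneg_left ?_ hP)
  nlinarith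

end Pool.Agent.Q124.EB
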