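import Pool.Agent.Q255.EB.Stm

/-!
# EB-PSI (project EB of helper255, MP_29be01_nt): quantile weights of a finite average law
-/

set_option autoImplicit false

namespace Pool.Agent.Q124.EB

open Finset Q282LT Q285MD Pool.Agent.Q255.EB

/-! ### Finite weighted laws -/

section law

variable {ι : Type} (I : Finset ι) (w v : ι → ℝ)

/-- mass of `{v < y}` -/
noncomputable def ml (y : ℝ) : ℝ := ∑ i ∈ I, if v i < y then w i else 0

/-- mass of `{v ≤ y}` -/
noncomputable def mr (y : ℝ) : ℝ := ∑ i ∈ I, if v i ≤ y then w i else 0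

variable {I w v}

theorem ml_nonneg (hw : ∀ i ∈ I, 0 < w i) (y : ℝ) : 0 ≤ ml I w v y :=
  sum_nonneg fun i hi => by split_ifs <;> [exact (hw i hi).le; exact le_rfl]

theorem mr_le (hw : ∀ i ∈ I, 0 < w i) (y : ℝ) : mr I w v y ≤ ∑ i ∈ I, w i :=
  sum_le_sum fun i hi => by split_ifs <;> [exact le_rfl; exact (hw i hi).le]

theorem ml_le_mr (hw : ∀ i ∈ I, 0 < w i) (y : ℝ) : ml I w v y ≤ mr I w v y :=
  sum_le_sum fun i hi => by
    have := (hw i hi).le
    split_ifs with h1 h2 h2
    · exact le_rfl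
    · exact absurd h1.le h2
    · exact this
    · exact le_rfl

theorem ml_lt_mr (hw : ∀ i ∈ I, 0 < w i) {i : ι} (hi : i ∈ I) : ml I w v (v i) < mr I w v (v i) := by
  refine sum_lt_sum (fun j hj => ?_) ⟨i, hi, ?_⟩
  · have := (hw j hj).le
    split_ifs with h1 h2 h2
    · exact le_rfl
    · exact absurd h1.le h2
    · exact this
    · exact le_rfl
  · rw [if_neg (lt_irrefl _), if_pos le_rfl]
    exact hw i hi

theorem ml_mono (hw : ∀ i ∈ I, 0 < w i) {y z : ℝ} (h : y ≤ z) : ml I w v y ≤ ml I w v z :=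
  sum_le_sum fun i hi => by
    have := (hw i hi).le
    split_ifs with h1 h2 h2
    · exact le_rfl
    · exact absurd (h1.trans_le h) h2
    · exact this
    · exact le_rfl

theorem mr_mono (hw : ∀ i ∈ I, 0 < w i) {y z : ℝ} (h : y ≤ z) : mr I w v y ≤ mr I w v z :=
  sum_le_sum fun i hi => by
    have := (hw i hi).le
    split_ifs with h1 h2 h2
    · exact le_rfl
    · exact absurd (h1.trans h) h2
    · exact this
    · exact le_rfl

theorem mr_le_ml (hw : ∀ i ∈ I, 0 < w i) {y z : ℝ} (h : y < z) : mr I w v y ≤ ml I w v z :=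
  sum_le_sum fun i hi => by
    have := (hw i hi).le
    split_ifs with h1 h2 h2
    · exact le_rfl
    · exact absurd (h1.trans_lt h) h2
    · exact this
    · exact le_rfl

/-- telescoping along the ordered values -/
theorem tele (φ : ℝ → ℝ) (m : ℝ → ℝ) (V : Finset ℝ) :
    ∑ y ∈ V, (φ (∑ z ∈ V, if z ≤ y then m z else 0) - φ (∑ z ∈ V, if z < y then m z else 0)) =
      φ (∑ z ∈ V, m z) - φ 0 := by
  induction V using Finset.induction_on_max with
  | empty => simp
  | insert a V ha ih =>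
    have hna : a ∉ V := fun h => lt_irrefl _ (ha a h)
    rw [sum_insert hna]
    have h1 : ∑ z ∈ insert a V, (if z ≤ a then m z else 0) = ∑ z ∈ insert a V, m z := by
      refine sum_congr rfl fun z hz => ?_
      rcases mem_insert.1 hz with rfl | hz
      · rw [if_pos le_rfl]
      · rw [if_pos (ha z hz).le]
    have h2 : ∑ z ∈ insert a V, (if z < a then m z else 0) = ∑ z ∈ V, m z := by
      rw [sum_insert hna, if_neg (lt_irrefl _), zero_add]
      refine sum_congr rfl fun z hz => ?_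
      rw [if_pos (ha z hz)]
    have h3 : ∀ y ∈ V, φ (∑ z ∈ insert a V, if z ≤ y then m z else 0) -
        φ (∑ z ∈ insert a V, if z < y then m z else 0) =
        φ (∑ z ∈ V, if z ≤ y then m z else 0) - φ (∑ z ∈ V, if z < y then m z else 0) := by
      intro y hy
      rw [sum_insert hna, sum_insert hna, if_neg (not_le.2 (ha y hy)),
        if_neg (not_lt.2 (ha y hy).le), zero_add, zero_add]
    rw [h1, h2, sum_congr rfl h3, ih]
    ring

/-- the clamped quotient -/
theorem clamp {a b t : ℝ} (h : a < b) : (b - a) * min 1 (max 0 ((t - a) / (b - a))) = min t b - min t a := by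
  have hba : 0 < b - a := by linarith
  rcases le_total t a with h1 | h1
  · have h2 : (t - a) / (b - a) ≤ 0 := div_nonpos_of_nonpos_of_nonneg (by linarith) hba.le
    rw [max_eq_left h2, min_eq_right zero_le_one, min_eq_left (h1.trans h.le), min_eq_left h1]
    ring
  · have h2 : 0 ≤ (t - a) / (b - a) := div_nonneg (by linarith) hba.le
    rw [max_eq_right h2, min_eq_right h1]
    rcases le_total t b with h3 | h3
    · have h4 : (t - a) / (b - a) ≤ 1 := by
        rw [div_le_one hba]
        linarith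
      rw [min_eq_right h4, min_eq_left h3, mul_div_cancel₀ _ hba.ne']
    · have h4 : 1 ≤ (t - a) / (b - a) := by
        rw [le_div_iff₀ hba]
        linarith
      rw [min_eq_left h4, min_eq_right h3, mul_one]

/-- the sum of the quantile weights -/
theorem law_sum (hw : ∀ i ∈ I, 0 < w i) {W t : ℝ} (hW : ∑ i ∈ I, w i = W) (hW0 : 0 < W) (ht0 : 0 ≤ t)
    (ht1 : t ≤ 1) :
    ∑ i ∈ I, w i * min 1 (max 0 ((t - ml I w v (v i) / W) / (mr I w v (v i) / W - ml I w v (v i) / W))) =
      W * t := by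
  classical
  -- masses of the values
  obtain ⟨m, hm⟩ : ∃ m : ℝ → ℝ, ∀ y, m y = ∑ i ∈ I with v i = y, w i := ⟨_, fun _ => rfl⟩
  have hl : ∀ y, ml I w v y = ∑ z ∈ I.image v, if z < y then m z else 0 := by
    intro y
    unfold ml
    rw [← sum_fiberwise_of_maps_to (s := I) (t := I.image v) (g := v) fun i hi => mem_image_of_mem v hi]
    refine sum_congr rfl fun z _ => ?_
    rw [hm]
    split_ifs with h
    · refine sum_congr rfl fun i hi => ?_
      rw [(mem_filter.1 hi).2, if_pos h]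
    · refine sum_eq_zero fun i hi => ?_
      rw [(mem_filter.1 hi).2, if_neg h]
  have hr : ∀ y, mr I w v y = ∑ z ∈ I.image v, if z ≤ y then m z else 0 := by
    intro y
    unfold mr
    rw [← sum_fiberwise_of_maps_to (s := I) (t := I.image v) (g := v) fun i hi => mem_image_of_mem v hi]
    refine sum_congr rfl fun z _ => ?_
    rw [hm]
    split_ifs with h
    · refine sum_congr rfl fun i hi => ?_
      rw [(mem_filter.1 hi).2, if_pos h]
    · refine sum_eq_zero fun i hi => ?_
      rw [(mem_filter.1 hi).2, if_neg h]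
  have htot : ∑ z ∈ I.image v, m z = W := by
    rw [← hW, ← sum_fiberwise_of_maps_to (s := I) (t := I.image v) (g := v) fun i hi => mem_image_of_mem v hi]
    exact sum_congr rfl fun z _ => hm z
  have hmass : ∀ y ∈ I.image v, m y = mr I w v y - ml I w v y := by
    intro y hy
    rw [hl, hr, ← sum_sub_distrib]
    have h1 : ∀ z ∈ I.image v, (if z ≤ y then m z else 0) - (if z < y then m z else 0) = if z = y then m z else 0 := by
      intro z _
      rcases lt_trichotomy z y with h | h | h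
      · rw [if_pos h.le, if_pos h, if_neg h.ne, sub_self]
      · rw [if_pos h.le, if_neg (not_lt.2 h.ge), if_pos h, sub_zero]
      · rw [if_neg (not_le.2 h), if_neg (not_lt.2 h.le), if_neg h.ne', sub_self]
    rw [sum_congr rfl h1, sum_ite_eq' _ _ _, if_pos hy]
  have hstep : ∑ i ∈ I, w i * min 1 (max 0 ((t - ml I w v (v i) / W) / (mr I w v (v i) / W - ml I w v (v i) / W))) =
      ∑ y ∈ I.image v, m y * min 1 (max 0 ((t - ml I w v y / W) / (mr I w v y / W - ml I w v y / W))) := by
    rw [← sum_fiberwise_of_maps_to (s := I) (t := I.image v) (g := v) fun i hi => mem_image_of_mem v hi]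
    refine sum_congr rfl fun z _ => ?_
    rw [hm, sum_mul]
    refine sum_congr rfl fun i hi => ?_
    rw [(mem_filter.1 hi).2]
  rw [hstep]
  have hterm : ∀ y ∈ I.image v, m y * min 1 (max 0 ((t - ml I w v y / W) / (mr I w v y / W - ml I w v y / W))) =
      W * ((fun u => min t (u / W)) (∑ z ∈ I.image v, if z ≤ y then m z else 0) -
        (fun u => min t (u / W)) (∑ z ∈ I.image v, if z < y then m z else 0)) := by
    intro y hy
    obtain ⟨i, hi, rfl⟩ := mem_image.1 hy
    have h1 := ml_lt_mr (v := v) hw hi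
    have h2 : ml I w v (v i) / W < mr I w v (v i) / W := div_lt_div_of_pos_right h1 hW0
    rw [hmass _ hy, ← hl, ← hr]
    have h3 := clamp (t := t) h2
    simp only
    rw [← h3]
    field_simp
  rw [sum_congr rfl hterm, ← mul_sum, tele (fun u => min t (u / W)) m (I.image v), htot, div_self hW0.ne', zero_div,
    min_eq_left ht1, min_eq_right ht0, sub_zero]

end law

/-! ### Translation -/

section tr

variable {d n : ℕ} {q : ℕ → ℕ} {x : ℕ → (Fin d → ℤ) → ℝ}

/-- the indices: the residues modulo `q k`, `k < n` -/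
noncomputable def Ix (d n : ℕ) (q : ℕ → ℕ) : Finset (Σ _ : ℕ, (Fin d → ℕ)) :=
  (range n).sigma fun k => Fintype.piFinset fun _ : Fin d => range (q k)

/-- the weights -/
noncomputable def wt (d : ℕ) (q : ℕ → ℕ) (i : Σ _ : ℕ, (Fin d → ℕ)) : ℝ := 1 / (q i.1 : ℝ) ^ d

/-- the values -/
def vl (x : ℕ → (Fin d → ℤ) → ℝ) (i : Σ _ : ℕ, (Fin d → ℕ)) : ℝ := x i.1 fun j => (i.2 j : ℤ)

theorem sum_avg (f : ℕ → (Fin d → ℤ) → ℝ) : ∑ k ∈ range n, avg d (q k) (f k) =
    ∑ i ∈ Ix d n q, wt d q i * f i.1 (fun j => (i.2 j : ℤ)) := by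
  unfold Ix wt
  rw [sum_sigma]
  refine sum_congr rfl fun k _ => ?_
  unfold avg
  simp only
  rw [← mul_sum, one_div, inv_mul_eq_div]

theorem wt_pos (hq : ∀ k < n, 1 ≤ q k) : ∀ i ∈ Ix d n q, 0 < wt d q i := by
  intro i hi
  unfold Ix at hi
  rw [mem_sigma] at hi
  have h1 : 0 < q i.1 := hq i.1 (mem_range.1 hi.1)
  have h2 : (0 : ℝ) < q i.1 := by exact_mod_cast h1
  unfold wt
  positivity

theorem wt_tot (hq : ∀ k < n, 1 ≤ q k) : ∑ i ∈ Ix d n q, wt d q i = n := by
  have h := sum_avg (d := d) (n := n) (q := q) fun _ _ => (1 : ℝ)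
  simp only [mul_one] at h
  rw [← h]
  rw [sum_congr rfl fun k hk => avg_const (d := d) (hq k (mem_range.1 hk)) 1]
  simp

theorem Fl_eq (y : ℝ) : Fl d n q x y = ml (Ix d n q) (wt d q) (vl x) y / n := by
  unfold Fl ml
  rw [sum_avg fun k ν => if x k ν < y then 1 else 0]
  congr 1
  refine sum_congr rfl fun i _ => ?_
  unfold vl
  split_ifs <;> simp

theorem Fr_eq (y : ℝ) : Fr d n q x y = mr (Ix d n q) (wt d q) (vl x) y / n := by
  unfold Fr mr
  rw [sum_avg fun k ν => if x k ν ≤ y then 1 else 0]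
  congr 1
  refine sum_congr rfl fun i _ => ?_
  unfold vl
  split_ifs <;> simp

/-- every value is the value of an index -/
theorem exists_ix (hq : ∀ k < n, 1 ≤ q k)
    (hx : ∀ k < n, ∀ ν ν' : Fin d → ℤ, (∀ i, (q k : ℤ) ∣ ν i - ν' i) → x k ν = x k ν') {k : ℕ} (hk : k < n)
    (ν : Fin d → ℤ) : ∃ i ∈ Ix d n q, vl x i = x k ν := by
  have hq0 : (0 : ℤ) < q k := by exact_mod_cast hq k hk
  refine ⟨⟨k, fun j => (ν j % (q k : ℤ)).toNat⟩, ?_, ?_⟩
  · unfold Ix
    rw [mem_sigma]
    refine ⟨mem_range.2 hk, ?_⟩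
    rw [Fintype.mem_piFinset]
    intro j
    rw [mem_range]
    have h1 := Int.emod_lt_of_pos (ν j) hq0
    have h2 := Int.emod_nonneg (ν j) hq0.ne'
    show (ν j % (q k : ℤ)).toNat < q k
    omega
  · refine hx k hk _ _ fun j => ?_
    have h2 := Int.emod_nonneg (ν j) hq0.ne'
    show (q k : ℤ) ∣ (((ν j % (q k : ℤ)).toNat : ℕ) : ℤ) - ν j
    rw [Int.toNat_of_nonneg h2]
    have := (Int.dvd_self_sub_emod (x := ν j) (m := (q k : ℤ)))
    rw [← dvd_neg, neg_sub] at this
    exact this

end tr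

/-- **PSI** -/
theorem t_PSI : S_PSI := by
  intro d n q x hn hq hx
  have hn0 : (0 : ℝ) < n := by exact_mod_cast hn
  have hw := wt_pos (d := d) hq
  have hW := wt_tot (d := d) hq
  have hFl0 : ∀ y, 0 ≤ Fl d n q x y := fun y => by
    rw [Fl_eq]
    exact div_nonneg (ml_nonneg hw y) hn0.le
  have hFr1 : ∀ y, Fr d n q x y ≤ 1 := fun y => by
    rw [Fr_eq, div_le_one hn0, ← hW]
    exact mr_le hw y
  have hFlr : ∀ y, Fl d n q x y ≤ Fr d n q x y := fun y => by
    rw [Fl_eq, Fr_eq]
    exact div_le_div_of_nonneg_right (ml_le_mr hw y) hn0.le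
  have hlt : ∀ k < n, ∀ ν, Fl d n q x (x k ν) < Fr d n q x (x k ν) := fun k hk ν => by
    obtain ⟨i, hi, h⟩ := exists_ix hq hx hk ν
    rw [Fl_eq, Fr_eq, ← h]
    exact div_lt_div_of_pos_right (ml_lt_mr hw hi) hn0
  have hone : ∀ t y, Fl d n q x y < Fr d n q x y → Fr d n q x y ≤ t → Psi d n q x t y = 1 := by
    intro t y h1 h2
    unfold Psi
    have h3 : 0 < Fr d n q x y - Fl d n q x y := by linarith
    have h4 : 1 ≤ (t - Fl d n q x y) / (Fr d n q x y - Fl d n q x y) := by
      rw [le_div_iff₀ h3]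
      linarith
    exact min_eq_left (h4.trans (le_max_right _ _))
  have hzero : ∀ t y, t ≤ Fl d n q x y → Psi d n q x t y = 0 := by
    intro t y h1
    unfold Psi
    have h4 : (t - Fl d n q x y) / (Fr d n q x y - Fl d n q x y) ≤ 0 :=
      div_nonpos_of_nonpos_of_nonneg (by linarith) (by linarith [hFlr y])
    rw [max_eq_left h4]
    exact min_eq_right zero_le_one
  refine ⟨fun t y => ?_, fun t t' y ht => ?_, fun k hk ν => ?_, fun t ht0 ht1 => ?_, fun b => ?_, fun b => ?_⟩
  · unfold Psi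
    exact ⟨le_min zero_le_one (le_max_left _ _), min_le_left _ _⟩
  · unfold Psi
    refine min_le_min le_rfl (max_le_max le_rfl ?_)
    exact div_le_div_of_nonneg_right (by linarith) (by linarith [hFlr y])
  · exact ⟨hzero 0 _ (hFl0 _), hone 1 _ (hlt k hk ν) (hFr1 _)⟩
  · rw [sum_avg fun k ν => Psi d n q x t (x k ν)]
    have h := law_sum (v := vl x) hw hW hn0 ht0 ht1
    rw [← h]
    refine sum_congr rfl fun i _ => ?_
    unfold Psi
    rw [Fl_eq, Fr_eq]
    rfl
  · refine ⟨Fl d n q x b, hFl0 b, (hFlr b).trans (hFr1 b), fun k hk ν => ?_⟩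
    split_ifs with h
    · refine hone _ _ (hlt k hk ν) ?_
      rw [Fl_eq, Fr_eq]
      exact div_le_div_of_nonneg_right (mr_le_ml hw h) hn0.le
    · refine hzero _ _ ?_
      rw [Fl_eq, Fl_eq]
      exact div_le_div_of_nonneg_right (ml_mono hw (not_lt.1 h)) hn0.le
  · refine ⟨Fr d n q x b, (hFl0 b).trans (hFlr b), hFr1 b, fun k hk ν => ?_⟩
    split_ifs with h
    · refine hone _ _ (hlt k hk ν) ?_
      rw [Fr_eq, Fr_eq]
      exact div_le_div_of_nonneg_right (mr_mono hw h) hn0.le
    · refine hzero _ _ ?_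
      rw [Fl_eq, Fr_eq]
      exact div_le_div_of_nonneg_right (mr_le_ml hw (not_le.1 h)) hn0.le

end Pool.Agent.Q124.EB
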